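import Pool.Agent.H.MP_0427c5_lc.Defs

/-!
# Generic data structures for 3SUM-Indexing with hash functions

Besides the label of the query the query algorithm sees a hash value of the query, in clear.
-/

namespace GGM3

/-- A data structure with `S` bits of memory, public coins in `Ω`, and `M` hash functions with values in
`W`. The memory is an arbitrary function of the coins and of the whole labelling of `K`. The coins and
the memory determine which of the `M` hash functions is applied to the query (`seed`). The query
algorithm sees the coins, the whole memory, the hash value of the query, and the label of the query. -/
structure HashStructure (K W : Type) (M S : ℕ) (Ω : Type) where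
  /-- preprocessing: the content of the memory -/
  pre : Ω → Equiv.Perm K → Fin (2 ^ S)
  /-- the hash function in use, given the coins and the memory -/
  seed : Ω → Fin (2 ^ S) → Fin M
  /-- the query algorithm, given the coins, the memory and the hash value of the query -/
  query : Ω → Fin (2 ^ S) → W → Alg K

variable {K W : Type} [Field K] [Fintype K] [DecidableEq K] [DecidableEq W]

/-- The elements outside of `B` with the same hash value as `z`. -/
def others (h : K → W) (B : Finset K) (z : K) : Finset K :=
  Finset.univ.filter fun x => x ∉ B ∧ h x = h z

/-- The probability of a wrong answer to the question whether the query belongs to `B`: here `z` is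
uniformly distributed in `B`, and the query is `z` with probability `1/2` and a uniformly distributed
element of `others h B z` with probability `1/2` (if this set is empty the answer counts as right). -/
noncomputable def hashErr (h : K → W) (R : W → Alg K) (σ : Equiv.Perm K) (T : ℕ) (B : Finset K) : ℝ :=
  (∑ z ∈ B, ((if run (R (h z)) σ T z = true then 0 else 1) +
    (((others h B z).filter fun x => run (R (h z)) σ T x = true).card : ℝ) /
      (others h B z).card)) / (2 * B.card)

/-- The average of the error probability over all coins and all labellings. -/
noncomputable def avgErr {M S : ℕ} {Ω : Type} [Fintype Ω] (h : Fin M → K → W)
    (D : HashStructure K W M S Ω) (T : ℕ) (B : Finset K) : ℝ :=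
  (∑ ω, ∑ σ, hashErr (h (D.seed ω (D.pre ω σ))) (D.query ω (D.pre ω σ)) σ T B) /
    (Fintype.card Ω * Fintype.card (Equiv.Perm K))

end GGM3
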