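import Mathlib

/-!
# 3SUM-Indexing with hash functions: from the moments to a contradiction
-/

namespace GGM3

open Finset

theorem core_abs {P : Type} [Fintype P] [Nonempty P] {S : ℕ} {Ω : Type} [Fintype Ω] [Nonempty Ω]
    (F : Ω → Fin (2 ^ S) → P → ℝ) (pre : Ω → P → Fin (2 ^ S)) (hF0 : ∀ ω μ σ, 0 ≤ F ω μ σ) (γ : ℝ)
    (hγ : 0 < γ) (hγ2 : γ ≤ 1 / 2)
    (h : 1 / 2 + γ ≤ (∑ ω, ∑ σ, F ω (pre ω σ) σ) / (Fintype.card Ω * Fintype.card P))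
    (m : ℕ) (hm : m = (S + 1) * ⌈3 / (2 * γ)⌉₊) (ρ : ℝ) (hρ0 : 0 ≤ ρ) (hρle : ρ ≤ (1 + γ) / 2)
    (hmu : ∀ ω μ, ∑ σ, F ω μ σ ^ m ≤ ρ ^ m * Fintype.card P) : False := by
  -- normalisation
  obtain ⟨W, hW⟩ : ∃ W : ℝ, W = (Fintype.card Ω : ℝ) * Fintype.card P := ⟨_, rfl⟩
  have hP : (0 : ℝ) < Fintype.card P := by
    exact_mod_cast Fintype.card_pos
  have hΩ : (0 : ℝ) < Fintype.card Ω := by
    exact_mod_cast Fintype.card_pos
  have hWpos : 0 < W := by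
    rw [hW]
    exact mul_pos hΩ hP
  let H : Ω × P → ℝ := fun q => F q.1 (pre q.1 q.2) q.2
  have hH0 : ∀ q, 0 ≤ H q := fun q => hF0 _ _ _
  have hsucc : (∑ ω, ∑ σ, F ω (pre ω σ) σ) / (Fintype.card Ω * Fintype.card P) =
      ∑ q, (1 / W) * H q := by
    rw [← Finset.mul_sum, ← Finset.univ_product_univ, Finset.sum_product, one_div,
      div_eq_inv_mul, hW]
  have hw : ∑ _q : Ω × P, (1 / W) = 1 := by
    rw [Finset.sum_const, Finset.card_univ, Fintype.card_prod, nsmul_eq_mul]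
    push_cast
    rw [← hW, mul_one_div_cancel hWpos.ne']
  rw [hsucc] at h
  obtain ⟨k, hk⟩ : ∃ k : ℕ, k = ⌈3 / (2 * γ)⌉₊ := ⟨_, rfl⟩
  have hk1 : 3 / (2 * γ) ≤ k := by
    rw [hk]
    exact Nat.le_ceil _
  have hk1' : 3 / 2 ≤ (k : ℝ) * γ := by
    have h1 : 3 / (2 * γ) * γ = 3 / 2 := by field_simp
    calc (3 : ℝ) / 2 = 3 / (2 * γ) * γ := h1.symm
      _ ≤ _ := mul_le_mul_of_nonneg_right hk1 hγ.le
  -- upper bound for the moments
  have hup : ∑ q, (1 / W) * H q ^ m ≤ 2 ^ S * ρ ^ m := by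
    have h1 : ∀ ω : Ω, ∑ σ, H (ω, σ) ^ m ≤ 2 ^ S * (ρ ^ m * Fintype.card P) := by
      intro ω
      calc ∑ σ, H (ω, σ) ^ m ≤ ∑ σ, ∑ μ : Fin (2 ^ S), F ω μ σ ^ m := by
            refine Finset.sum_le_sum fun σ _ => ?_
            exact Finset.single_le_sum (f := fun μ : Fin (2 ^ S) => F ω μ σ ^ m)
              (fun μ _ => pow_nonneg (hF0 _ _ _) m) (Finset.mem_univ (pre ω σ))
        _ = ∑ μ : Fin (2 ^ S), ∑ σ, F ω μ σ ^ m := Finset.sum_comm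
        _ ≤ ∑ _μ : Fin (2 ^ S), ρ ^ m * Fintype.card P := Finset.sum_le_sum fun μ _ => hmu ω μ
        _ = 2 ^ S * (ρ ^ m * Fintype.card P) := by
            rw [Finset.sum_const, Finset.card_univ, Fintype.card_fin, nsmul_eq_mul]
            push_cast
            rfl
    rw [← Finset.mul_sum, ← Finset.univ_product_univ, Finset.sum_product]
    have h2 : ∑ ω : Ω, ∑ σ, H (ω, σ) ^ m ≤
        (Fintype.card Ω : ℝ) * (2 ^ S * (ρ ^ m * Fintype.card P)) := by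
      calc _ ≤ ∑ _ω : Ω, 2 ^ S * (ρ ^ m * (Fintype.card P : ℝ)) :=
            Finset.sum_le_sum fun ω _ => h1 ω
        _ = _ := by rw [Finset.sum_const, Finset.card_univ, nsmul_eq_mul]
    calc 1 / W * ∑ ω : Ω, ∑ σ, H (ω, σ) ^ m
        ≤ 1 / W * ((Fintype.card Ω : ℝ) * (2 ^ S * (ρ ^ m * Fintype.card P))) :=
          mul_le_mul_of_nonneg_left h2 (one_div_pos.mpr hWpos).le
      _ = 2 ^ S * ρ ^ m := by
          rw [hW]
          field_simp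
  -- Jensen
  have hJ : (1 / 2 + γ) ^ m ≤ 2 ^ S * ρ ^ m := by
    calc (1 / 2 + γ) ^ m ≤ (∑ q, (1 / W) * H q) ^ m := pow_le_pow_left₀ (by linarith) h m
      _ ≤ ∑ q, (1 / W) * H q ^ m :=
          Real.pow_arith_mean_le_arith_mean_pow Finset.univ (fun _ => 1 / W) H
            (fun _ _ => (one_div_pos.mpr hWpos).le) hw (fun q _ => hH0 q) m
      _ ≤ _ := hup
  have hJ2 : (1 + 2 * γ) ^ m ≤ 2 ^ S * (1 + γ) ^ m := by
    have h1 : ρ ^ m ≤ ((1 + γ) / 2) ^ m := pow_le_pow_left₀ hρ0 hρle m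
    have h2 : (1 / 2 + γ) ^ m = (1 + 2 * γ) ^ m / 2 ^ m := by
      rw [← div_pow]
      congr 1
      ring
    have h3 : (1 + 2 * γ) ^ m / 2 ^ m ≤ 2 ^ S * ((1 + γ) ^ m / 2 ^ m) := by
      rw [← h2, ← div_pow]
      exact hJ.trans (mul_le_mul_of_nonneg_left h1 (by positivity))
    rw [mul_div_assoc', div_le_div_iff_of_pos_right (by positivity)] at h3
    exact h3
  -- growth
  have hgrow : (2 : ℝ) * (1 + γ) ^ k ≤ (1 + 2 * γ) ^ k := by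
    have h1 : (1 + γ) * (1 + 2 * γ / 3) ≤ 1 + 2 * γ := by nlinarith
    have h2 : (2 : ℝ) ≤ (1 + 2 * γ / 3) ^ k := by
      have h3 := one_add_mul_le_pow (a := 2 * γ / 3) (by linarith) k
      nlinarith
    calc (2 : ℝ) * (1 + γ) ^ k ≤ (1 + 2 * γ / 3) ^ k * (1 + γ) ^ k :=
          mul_le_mul_of_nonneg_right h2 (by positivity)
      _ = ((1 + γ) * (1 + 2 * γ / 3)) ^ k := by rw [mul_pow]; ring
      _ ≤ _ := pow_le_pow_left₀ (by positivity) h1 k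
  have hgrow2 : (2 : ℝ) ^ (S + 1) * (1 + γ) ^ m ≤ (1 + 2 * γ) ^ m := by
    rw [hm, ← hk, mul_comm (S + 1) k, pow_mul, pow_mul, ← mul_pow]
    exact pow_le_pow_left₀ (by positivity) hgrow (S + 1)
  have hpos : (0 : ℝ) < 2 ^ S * (1 + γ) ^ m := by positivity
  have : (2 : ℝ) ^ (S + 1) * (1 + γ) ^ m = 2 * (2 ^ S * (1 + γ) ^ m) := by ring
  linarith

end GGM3
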