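import Pool.Agent.H.MP_0427c5_lc.hf.Step

/-!
# 3SUM-Indexing with hash functions: the number of hits

`k i` are the elements of `A` modulo `p`, `cl q` is the class (hash value) of the sum over the pair `q`.
-/

namespace GGM3

open Finset
open scoped Classical

/-- two pairs of indices are different as sets of two elements -/
def Pne {n : ℕ} (a b : Fin n × Fin n) : Prop :=
  ¬ (a.1 = b.1 ∧ a.2 = b.2) ∧ ¬ (a.1 = b.2 ∧ a.2 = b.1)

/-- two pairs of indices are disjoint -/
def Pdj {n : ℕ} (a b : Fin n × Fin n) : Prop :=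
  a.1 ≠ b.1 ∧ a.1 ≠ b.2 ∧ a.2 ≠ b.1 ∧ a.2 ≠ b.2

/-- the sum of the values at a pair of indices -/
def ps {n : ℕ} {V : Type*} [Add V] (k : Fin n → V) (a : Fin n × Fin n) : V := k a.1 + k a.2

theorem pne_of_ps {n : ℕ} {V : Type*} [AddCommGroup V] (k : Fin n → V) {a b : Fin n × Fin n}
    (h : ps k a ≠ ps k b) : Pne a b := by
  refine ⟨fun e => h ?_, fun e => h ?_⟩
  · unfold ps
    rw [e.1, e.2]
  · unfold ps
    rw [e.1, e.2, add_comm]

/-- generic position -/
structure Gen {n : ℕ} {K : Type} [Field K] (k : Fin n → K) : Prop where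
  sidon : ∀ a b : Fin n × Fin n, Pne a b → ps k a ≠ ps k b
  quad : ∀ a b c a' b' c' : Fin n × Fin n, a.1 ≠ a.2 → b.1 ≠ b.2 → c.1 ≠ c.2 →
    Pdj a b → Pne a c → Pne b c → Pne a' b' → Pne a' a → Pne b' a →
    (ps k a - ps k b) * (ps k a' - ps k c') ≠ (ps k a - ps k c) * (ps k a' - ps k b')

variable {n : ℕ} {K : Type} [Field K] [Fintype K] {U : Type} [Fintype U]

/-- the sums of the class `u` -/
noncomputable def bk (cl : Fin n × Fin n → U) (k : Fin n → K) (u : U) : Finset K :=
  (univ.filter fun q : Fin n × Fin n => cl q = u).image (ps k)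

theorem card_bk_le (cl : Fin n × Fin n → U) (k : Fin n → K) : ∑ u, (bk cl k u).card ≤ n ^ 2 := by
  calc ∑ u, (bk cl k u).card ≤ ∑ u, (univ.filter fun q : Fin n × Fin n => cl q = u).card :=
        Finset.sum_le_sum fun u _ => Finset.card_image_le
    _ = (univ : Finset (Fin n × Fin n)).card :=
        (Finset.card_eq_sum_card_fiberwise fun q _ => Finset.mem_coe.mpr (Finset.mem_univ _)).symm
    _ = n ^ 2 := by
        rw [Finset.card_univ, Fintype.card_prod, Fintype.card_fin, sq]

theorem card_bk_ge (cl : Fin n × Fin n → U) {k : Fin n → K} (hk : Gen k) :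
    n ^ 2 ≤ 2 * ∑ u, (bk cl k u).card := by
  calc n ^ 2 = (univ : Finset (Fin n × Fin n)).card := by
        rw [Finset.card_univ, Fintype.card_prod, Fintype.card_fin, sq]
    _ = ∑ u, (univ.filter fun q : Fin n × Fin n => cl q = u).card :=
        Finset.card_eq_sum_card_fiberwise fun q _ => Finset.mem_coe.mpr (Finset.mem_univ _)
    _ ≤ ∑ u, 2 * (bk cl k u).card := by
        refine Finset.sum_le_sum fun u _ => ?_
        refine Finset.card_le_mul_card_image _ 2 ?_
        intro x hx
        obtain ⟨q, hq, rfl⟩ := Finset.mem_image.mp hx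
        have hsub : ((univ.filter fun q : Fin n × Fin n => cl q = u).filter
            fun q' => ps k q' = ps k q) ⊆ {q, (q.2, q.1)} := by
          intro q' hq'
          rw [Finset.mem_filter] at hq'
          rw [Finset.mem_insert, Finset.mem_singleton]
          by_contra hc
          rw [not_or] at hc
          refine hk.sidon q' q ⟨fun e => hc.1 (Prod.ext e.1 e.2),
            fun e => hc.2 (Prod.ext e.1 e.2)⟩ hq'.2
        exact (Finset.card_le_card hsub).trans Finset.card_le_two
    _ = _ := by rw [Finset.mul_sum]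

/-- the hits at sums of two different elements, as elements of `X` -/
noncomputable def yset (cl : Fin n × Fin n → U) (k : Fin n → K) (X : Finset K) (g : U → K × K) (u : U) :
    Finset K :=
  X.filter fun x => (g u).1 ≠ 0 ∧ ∃ q : Fin n × Fin n, q.1 ≠ q.2 ∧ cl q = u ∧
    ev (g u) (ps k q) = x

theorem share (cl : Fin n × Fin n → U) (hcl : ∀ i j, cl (i, j) = cl (j, i)) {k : Fin n → K}
    (hk : Gen k) {r : U → ℕ} (hr1 : ∀ w, 1 ≤ r w)
    (hr : ∀ i w, (univ.filter fun j => cl (i, j) = w).card ≤ r w) (X : Finset K) (g : U → K × K)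
    {u u' : U} (hu : u ≠ u') : (yset cl k X g u ∩ yset cl k X g u').card ≤ 2 * r u := by
  set Sh := yset cl k X g u ∩ yset cl k X g u' with hSh
  have hmem : ∀ x ∈ Sh, (g u).1 ≠ 0 ∧ (g u').1 ≠ 0 ∧
      (∃ q : Fin n × Fin n, q.1 ≠ q.2 ∧ cl q = u ∧ ev (g u) (ps k q) = x) ∧
      ∃ q : Fin n × Fin n, q.1 ≠ q.2 ∧ cl q = u' ∧ ev (g u') (ps k q) = x := by
    intro x hx
    rw [hSh, Finset.mem_inter] at hx
    unfold yset at hx
    rw [Finset.mem_filter, Finset.mem_filter] at hx
    exact ⟨hx.1.2.1, hx.2.2.1, hx.1.2.2, hx.2.2.2⟩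
  rcases Sh.eq_empty_or_nonempty with hE | ⟨x₁, hx₁⟩
  · rw [hE, Finset.card_empty]
    exact Nat.zero_le _
  obtain ⟨hg, hg', ⟨a, haa, hau, hax⟩, ⟨a', haa', hau', hax'⟩⟩ := hmem x₁ hx₁
  have hr1 := hr1 u
  by_cases hcard : Sh.card ≤ 2
  · omega
  -- every element of the intersection comes from a pair which meets `a`
  have hmeet : ∀ x ∈ Sh, ∃ b : Fin n × Fin n, cl b = u ∧ ev (g u) (ps k b) = x ∧ ¬ Pdj a b := by
    intro x hx
    by_cases hxx : x = x₁
    · exact ⟨a, hau, by rw [hax, hxx], fun h => h.1 rfl⟩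
    obtain ⟨-, -, ⟨b, hbb, hbu, hbx⟩, ⟨b', hbb', hbu', hbx'⟩⟩ := hmem x hx
    refine ⟨b, hbu, hbx, fun hdj => ?_⟩
    obtain ⟨y, hy, hyx₁, hyx⟩ : ∃ y ∈ Sh, y ≠ x₁ ∧ y ≠ x := by
      by_contra hc
      push Not at hc
      apply hcard
      have : Sh ⊆ {x₁, x} := by
        intro y hy
        rw [Finset.mem_insert, Finset.mem_singleton]
        by_cases h : y = x₁
        · exact Or.inl h
        · exact Or.inr (hc y hy h)
      exact (Finset.card_le_card this).trans Finset.card_le_two
    obtain ⟨-, -, ⟨c, hcc, hcu, hcx⟩, ⟨c', hcc', hcu', hcx'⟩⟩ := hmem y hy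
    have hne : ∀ (w : U) (p q : Fin n × Fin n) (s t : K), ev (g w) (ps k p) = s →
        ev (g w) (ps k q) = t → s ≠ t → Pne p q := by
      intro w p q s t h1 h2 hst
      apply pne_of_ps k
      intro e
      apply hst
      rw [← h1, ← h2, e]
    have hcls : ∀ p : Fin n × Fin n, cl p = u' → Pne p a := by
      intro p hp
      refine ⟨fun e => hu ?_, fun e => hu ?_⟩
      · rw [← hau, ← hp, Prod.ext e.1 e.2]
      · rw [← hau, ← hp, ← Prod.mk.eta (p := p), e.1, e.2, hcl]
    refine hk.quad a b c a' b' c' haa hbb hcc hdj (hne u a c _ _ hax hcx hyx₁.symm)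
      (hne u b c _ _ hbx hcx (Ne.symm hyx)) (hne u' a' b' _ _ hax' hbx' (Ne.symm hxx))
      (hcls a' hau') (hcls b' hbu') ?_
    have e1 : (g u).1 * (ps k a - ps k b) = (g u').1 * (ps k a' - ps k b') := by
      have h1 : (g u).1 * (ps k a - ps k b) = x₁ - x := by
        rw [← hax, ← hbx]
        simp only [ev]
        ring
      have h2 : (g u').1 * (ps k a' - ps k b') = x₁ - x := by
        rw [← hax', ← hbx']
        simp only [ev]
        ring
      rw [h1, h2]
    have e2 : (g u).1 * (ps k a - ps k c) = (g u').1 * (ps k a' - ps k c') := by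
      have h1 : (g u).1 * (ps k a - ps k c) = x₁ - y := by
        rw [← hax, ← hcx]
        simp only [ev]
        ring
      have h2 : (g u').1 * (ps k a' - ps k c') = x₁ - y := by
        rw [← hax', ← hcx']
        simp only [ev]
        ring
      rw [h1, h2]
    apply mul_left_cancel₀ (mul_ne_zero hg hg')
    calc (g u).1 * (g u').1 * ((ps k a - ps k b) * (ps k a' - ps k c'))
        = ((g u).1 * (ps k a - ps k b)) * ((g u').1 * (ps k a' - ps k c')) := by ring
      _ = ((g u').1 * (ps k a' - ps k b')) * ((g u).1 * (ps k a - ps k c)) := by rw [e1, e2]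
      _ = _ := by ring
  have hsub : Sh ⊆ ((univ.filter fun j => cl (a.1, j) = u).image
      fun j => ev (g u) (k a.1 + k j)) ∪ ((univ.filter fun j => cl (a.2, j) = u).image
      fun j => ev (g u) (k a.2 + k j)) := by
    intro x hx
    obtain ⟨b, hbu, hbx, hdj⟩ := hmeet x hx
    rw [Finset.mem_union, Finset.mem_image, Finset.mem_image]
    unfold ps at hbx
    unfold Pdj at hdj
    by_cases h1 : a.1 = b.1
    · left
      refine ⟨b.2, Finset.mem_filter.mpr ⟨Finset.mem_univ _, ?_⟩, ?_⟩
      · rw [h1]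
        exact hbu
      · rw [h1]
        exact hbx
    by_cases h2 : a.1 = b.2
    · left
      refine ⟨b.1, Finset.mem_filter.mpr ⟨Finset.mem_univ _, ?_⟩, ?_⟩
      · rw [h2, hcl]
        exact hbu
      · rw [h2, add_comm]
        exact hbx
    by_cases h3 : a.2 = b.1
    · right
      refine ⟨b.2, Finset.mem_filter.mpr ⟨Finset.mem_univ _, ?_⟩, ?_⟩
      · rw [h3]
        exact hbu
      · rw [h3]
        exact hbx
    by_cases h4 : a.2 = b.2
    · right
      refine ⟨b.1, Finset.mem_filter.mpr ⟨Finset.mem_univ _, ?_⟩, ?_⟩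
      · rw [h4, hcl]
        exact hbu
      · rw [h4, add_comm]
        exact hbx
    exact absurd ⟨h1, h2, h3, h4⟩ hdj
  have h1 := Finset.card_le_card hsub
  have h2 := Finset.card_union_le ((univ.filter fun j => cl (a.1, j) = u).image
      fun j => ev (g u) (k a.1 + k j)) ((univ.filter fun j => cl (a.2, j) = u).image
      fun j => ev (g u) (k a.2 + k j))
  have h3 : ((univ.filter fun j => cl (a.1, j) = u).image
      fun j => ev (g u) (k a.1 + k j)).card ≤ r u := Finset.card_image_le.trans (hr _ _)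
  have h4 : ((univ.filter fun j => cl (a.2, j) = u).image
      fun j => ev (g u) (k a.2 + k j)).card ≤ r u := Finset.card_image_le.trans (hr _ _)
  omega

/-- double counting -/
theorem count_yset (cl : Fin n × Fin n → U) (hcl : ∀ i j, cl (i, j) = cl (j, i)) {k : Fin n → K}
    (hk : Gen k) {r : U → ℕ} (hr1 : ∀ w, 1 ≤ r w)
    (hr : ∀ i w, (univ.filter fun j => cl (i, j) = w).card ≤ r w) (X : Finset K) (g : U → K × K) :
    (∑ u, (yset cl k X g u).card) ^ 2 ≤
      X.card * ((∑ u, (yset cl k X g u).card) + 2 * (Fintype.card U * ∑ u, r u)) := by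
  set Y := yset cl k X g with hY
  have hYX : ∀ u, Y u ⊆ X := fun u => Finset.filter_subset _ _
  have hcard : ∀ S : Finset K, S ⊆ X → S.card = ∑ x ∈ X, if x ∈ S then 1 else 0 := by
    intro S hS
    rw [← Finset.card_filter]
    congr 1
    ext x
    rw [Finset.mem_filter]
    exact ⟨fun h => ⟨hS h, h⟩, fun h => h.2⟩
  have h1 : ∑ u, (Y u).card = ∑ x ∈ X, ∑ u, (if x ∈ Y u then 1 else 0) := by
    rw [Finset.sum_comm]
    exact Finset.sum_congr rfl fun u _ => hcard _ (hYX u)
  have h2 : ∑ x ∈ X, (∑ u, (if x ∈ Y u then 1 else 0)) ^ 2 = ∑ u, ∑ u', (Y u ∩ Y u').card := by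
    have h3 : ∀ x, (∑ u, (if x ∈ Y u then 1 else 0)) ^ 2 =
        ∑ u, ∑ u', (if x ∈ Y u ∩ Y u' then 1 else 0) := by
      intro x
      rw [sq, Finset.sum_mul_sum]
      refine Finset.sum_congr rfl fun u _ => Finset.sum_congr rfl fun u' _ => ?_
      by_cases h4 : x ∈ Y u <;> by_cases h5 : x ∈ Y u' <;> simp [h4, h5]
    rw [Finset.sum_congr rfl fun x _ => h3 x, Finset.sum_comm]
    refine Finset.sum_congr rfl fun u _ => ?_
    rw [Finset.sum_comm]
    refine Finset.sum_congr rfl fun u' _ => ?_
    exact (hcard _ ((Finset.inter_subset_left).trans (hYX u))).symm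
  have h3 : ∑ u, ∑ u', (Y u ∩ Y u').card ≤
      (∑ u, (Y u).card) + 2 * (Fintype.card U * ∑ u, r u) := by
    calc ∑ u, ∑ u', (Y u ∩ Y u').card
        ≤ ∑ u, ∑ u', ((if u = u' then (Y u).card else 0) + 2 * r u) := by
          refine Finset.sum_le_sum fun u _ => Finset.sum_le_sum fun u' _ => ?_
          by_cases h : u = u'
          · rw [if_pos h]
            refine (Finset.card_le_card Finset.inter_subset_left).trans (Nat.le_add_right _ _)
          · rw [if_neg h, Nat.zero_add]
            exact share cl hcl hk hr1 hr X g h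
      _ = _ := by
          have h4 : ∀ u : U, ∑ u', ((if u = u' then (Y u).card else 0) + 2 * r u) =
              (Y u).card + Fintype.card U * (2 * r u) := by
            intro u
            rw [Finset.sum_add_distrib, Finset.sum_ite_eq, if_pos (Finset.mem_univ _),
              Finset.sum_const, Finset.card_univ, smul_eq_mul]
          rw [Finset.sum_congr rfl fun u _ => h4 u, Finset.sum_add_distrib, ← Finset.mul_sum,
            ← Finset.mul_sum]
          ring
  calc (∑ u, (Y u).card) ^ 2 = (∑ x ∈ X, ∑ u, (if x ∈ Y u then 1 else 0)) ^ 2 := by rw [h1]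
    _ ≤ X.card * ∑ x ∈ X, (∑ u, (if x ∈ Y u then 1 else 0)) ^ 2 := sq_sum_le_card_mul_sum_sq
    _ = X.card * ∑ u, ∑ u', (Y u ∩ Y u').card := by rw [h2]
    _ ≤ _ := Nat.mul_le_mul_left _ h3

/-- the hits -/
theorem cover (cl : Fin n × Fin n → U) (hcl : ∀ i j, cl (i, j) = cl (j, i)) {k : Fin n → K}
    (hk : Gen k) {r : U → ℕ} (hr1 : ∀ w, 1 ≤ r w)
    (hr : ∀ i w, (univ.filter fun j => cl (i, j) = w).card ≤ r w) (X : Finset K) (g : U → K × K) :
    ∃ I : ℕ, ∑ u, (hits (g u) X (bk cl k u)).card ≤ n + I ∧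
      I ^ 2 ≤ X.card * (I + 2 * (Fintype.card U * ∑ u, r u)) := by
  refine ⟨∑ u, (yset cl k X g u).card, ?_, count_yset cl hcl hk hr1 hr X g⟩
  -- sums of an element with itself
  have h1 : ∀ u, (hits (g u) X (bk cl k u)).card ≤
      (((univ : Finset (Fin n)).filter fun i => cl (i, i) = u)).card + (yset cl k X g u).card := by
    intro u
    have hsub : hits (g u) X (bk cl k u) ⊆
        ((univ : Finset (Fin n)).filter fun i => cl (i, i) = u).image (fun i => ps k (i, i)) ∪
        ((hits (g u) X (bk cl k u)).filter fun z => ∃ q : Fin n × Fin n, q.1 ≠ q.2 ∧ cl q = u ∧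
          ps k q = z) := by
      intro z hz
      have hz' := hz
      unfold hits bk at hz'
      rw [Finset.mem_filter, Finset.mem_image] at hz'
      obtain ⟨⟨q, hq, rfl⟩, -, -⟩ := hz'
      rw [Finset.mem_filter] at hq
      rw [Finset.mem_union, Finset.mem_image, Finset.mem_filter]
      by_cases h : q.1 = q.2
      · left
        have e : ((q.1, q.1) : Fin n × Fin n) = q := Prod.ext rfl h
        exact ⟨q.1, Finset.mem_filter.mpr ⟨Finset.mem_univ _, by rw [e]; exact hq.2⟩, by rw [e]⟩
      · exact Or.inr ⟨hz, q, h, hq.2, rfl⟩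
    refine (Finset.card_le_card hsub).trans ((Finset.card_union_le _ _).trans
      (Nat.add_le_add Finset.card_image_le ?_))
    refine Finset.card_le_card_of_injOn (fun z => ev (g u) z) ?_ ?_
    · intro z hz
      rw [Finset.mem_coe, Finset.mem_filter] at hz
      obtain ⟨hz, q, hqq, hqu, rfl⟩ := hz
      unfold hits at hz
      rw [Finset.mem_filter] at hz
      rw [Finset.mem_coe]
      unfold yset
      rw [Finset.mem_filter]
      exact ⟨hz.2.2, hz.2.1, q, hqq, hqu, rfl⟩
    · intro z hz z' hz' he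
      rw [Finset.mem_coe, Finset.mem_filter] at hz
      have h0 : (g u).1 ≠ 0 := by
        have := hz.1
        unfold hits at this
        rw [Finset.mem_filter] at this
        exact this.2.1
      simp only [ev] at he
      exact mul_left_cancel₀ h0 (add_right_cancel he)
  calc ∑ u, (hits (g u) X (bk cl k u)).card
      ≤ ∑ u, ((((univ : Finset (Fin n)).filter fun i => cl (i, i) = u)).card +
          (yset cl k X g u).card) := Finset.sum_le_sum fun u _ => h1 u
    _ = n + ∑ u, (yset cl k X g u).card := by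
        rw [Finset.sum_add_distrib]
        congr 1
        have h2 := Finset.card_eq_sum_card_fiberwise (s := (univ : Finset (Fin n)))
          (t := (univ : Finset U)) (f := fun i => cl (i, i))
          fun i _ => Finset.mem_coe.mpr (Finset.mem_univ _)
        rw [Finset.card_univ, Fintype.card_fin] at h2
        exact h2.symm

end GGM3
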