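import Pool.Agent.H.MP_0427c5_lc.hf.Cover

/-!
# 3SUM-Indexing with hash functions: sets in generic position exist
-/

namespace GGM3

open Finset
open scoped Classical

/-- common nonzeros of few polynomials of degree at most two outside of a small set -/
theorem exists_good {n : ℕ} {R : Type} [Field R] (S : Finset R)
    (E : Finset (MvPolynomial (Fin n) R)) (hE : ∀ P ∈ E, P ≠ 0 ∧ P.totalDegree ≤ 2)
    (hS : 4 * E.card ≤ S.card) (hS1 : 0 < S.card) (Bad : Finset (Fin n → R))
    (hBad : 2 * Bad.card < S.card ^ n) :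
    ∃ f : Fin n → R, (∀ i, f i ∈ S) ∧ f ∉ Bad ∧ ∀ P ∈ E, MvPolynomial.eval f P ≠ 0 := by
  by_contra hcon
  have hcov : Fintype.piFinset (fun _ : Fin n => S) ⊆
      (E.biUnion fun P => {f ∈ Fintype.piFinset fun _ => S | MvPolynomial.eval f P = 0}) ∪ Bad := by
    intro f hf
    rw [Finset.mem_union, Finset.mem_biUnion]
    by_contra hc
    rw [not_or] at hc
    apply hcon
    refine ⟨f, fun i => Fintype.mem_piFinset.mp hf i, hc.2, fun P hP h0 => hc.1 ⟨P, hP, ?_⟩⟩
    exact Finset.mem_filter.mpr ⟨hf, h0⟩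
  have h1 := (Finset.card_le_card hcov).trans ((Finset.card_union_le _ _).trans
    (Nat.add_le_add_right Finset.card_biUnion_le _))
  have hS0 : (0 : ℚ≥0) < S.card := by exact_mod_cast hS1
  have hT : (Fintype.piFinset (fun _ : Fin n => S)).card = S.card ^ n := by
    rw [Fintype.card_piFinset, Finset.prod_const, Finset.card_univ, Fintype.card_fin]
  rw [hT] at h1
  have h2 : ∀ P ∈ E, ((({f ∈ Fintype.piFinset fun _ => S | MvPolynomial.eval f P = 0} :
      Finset (Fin n → R)).card : ℕ) : ℚ≥0) ≤ 2 / S.card * (S.card : ℚ≥0) ^ n := by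
    intro P hP
    have h3 := MvPolynomial.schwartz_zippel_totalDegree (hE P hP).1 S
    rw [div_le_iff₀ (pow_pos hS0 n)] at h3
    refine h3.trans ?_
    apply mul_le_mul_of_nonneg_right _ zero_le
    apply div_le_div_of_nonneg_right _ zero_le
    exact_mod_cast (hE P hP).2
  have h4 : ((∑ P ∈ E, ({f ∈ Fintype.piFinset fun _ => S | MvPolynomial.eval f P = 0} :
      Finset (Fin n → R)).card : ℕ) : ℚ≥0) ≤ E.card * (2 / S.card * (S.card : ℚ≥0) ^ n) := by
    calc _ = ∑ P ∈ E, ((({f ∈ Fintype.piFinset fun _ => S | MvPolynomial.eval f P = 0} :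
            Finset (Fin n → R)).card : ℕ) : ℚ≥0) := by push_cast; rfl
      _ ≤ ∑ _P ∈ E, (2 / S.card * (S.card : ℚ≥0) ^ n) := Finset.sum_le_sum h2
      _ = _ := by rw [Finset.sum_const, nsmul_eq_mul]
  have h5 : 2 * ((E.card : ℚ≥0) * (2 / S.card * (S.card : ℚ≥0) ^ n)) ≤ (S.card : ℚ≥0) ^ n := by
    have h6 : 4 * (E.card : ℚ≥0) / S.card ≤ 1 := by
      rw [div_le_one hS0]
      exact_mod_cast hS
    calc 2 * ((E.card : ℚ≥0) * (2 / S.card * (S.card : ℚ≥0) ^ n))
        = 4 * (E.card : ℚ≥0) / S.card * (S.card : ℚ≥0) ^ n := by ring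
      _ ≤ 1 * (S.card : ℚ≥0) ^ n := mul_le_mul_of_nonneg_right h6 zero_le
      _ = _ := one_mul _
  have h7 : 2 * (∑ P ∈ E, ({f ∈ Fintype.piFinset fun _ => S | MvPolynomial.eval f P = 0} :
      Finset (Fin n → R)).card) ≤ S.card ^ n := by
    have h8 := (mul_le_mul_of_nonneg_left h4 (zero_le (a := (2 : ℚ≥0)))).trans h5
    exact_mod_cast h8
  omega

/-- the exponential moment of the number of sums in `C` -/
theorem exp_moment {n : ℕ} {R : Type} [Field R] (S C : Finset R) (i : Fin n) :
    ∑ f ∈ Fintype.piFinset (fun _ : Fin n => S),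
      2 ^ (univ.filter fun j => f i + f j ∈ C).card ≤ 2 * S.card * (S.card + C.card) ^ (n - 1) := by
  have h1 : ∀ f ∈ Fintype.piFinset (fun _ : Fin n => S), f i ∈ S := fun f hf =>
    Fintype.mem_piFinset.mp hf i
  rw [← Finset.sum_fiberwise_of_maps_to h1]
  have h2 : ∀ a ∈ S, ∑ f ∈ Fintype.piFinset (fun _ : Fin n => S) with f i = a,
      2 ^ (univ.filter fun j => f i + f j ∈ C).card ≤ 2 * (S.card + C.card) ^ (n - 1) := by
    intro a _
    set t : Fin n → Finset R := fun j => if j = i then {a} else S with ht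
    calc ∑ f ∈ Fintype.piFinset (fun _ : Fin n => S) with f i = a,
          2 ^ (univ.filter fun j => f i + f j ∈ C).card
        = ∑ f ∈ Fintype.piFinset (fun _ : Fin n => S) with f i = a,
          ∏ j, (if a + f j ∈ C then 2 else 1) := by
          refine Finset.sum_congr rfl fun f hf => ?_
          rw [(Finset.mem_filter.mp hf).2, Finset.prod_ite, Finset.prod_const, Finset.prod_const_one,
            mul_one]
      _ ≤ ∑ f ∈ Fintype.piFinset t, ∏ j, (if a + f j ∈ C then 2 else 1) := by
          refine Finset.sum_le_sum_of_subset fun f hf => ?_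
          rw [Finset.mem_filter, Fintype.mem_piFinset] at hf
          rw [Fintype.mem_piFinset]
          intro j
          rw [ht]
          by_cases hj : j = i
          · simp only [if_pos hj, Finset.mem_singleton]
            rw [hj]
            exact hf.2
          · simp only [if_neg hj]
            exact hf.1 j
      _ = ∏ j, ∑ x ∈ t j, (if a + x ∈ C then 2 else 1) :=
          (Finset.prod_univ_sum t fun _ x => if a + x ∈ C then 2 else 1).symm
      _ ≤ ∏ j, (if j = i then 2 else S.card + C.card) := by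
          refine Finset.prod_le_prod' fun j _ => ?_
          rw [ht]
          by_cases hj : j = i
          · simp only [if_pos hj, Finset.sum_singleton]
            split_ifs <;> omega
          · simp only [if_neg hj]
            have h3 : ∀ x : R, (if a + x ∈ C then 2 else 1) = 1 + (if a + x ∈ C then 1 else 0) := by
              intro x
              split_ifs <;> rfl
            rw [Finset.sum_congr rfl fun x _ => h3 x, Finset.sum_add_distrib, Finset.sum_const,
              smul_eq_mul, mul_one, ← Finset.card_filter]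
            refine Nat.add_le_add_left ?_ _
            refine Finset.card_le_card_of_injOn (fun x => a + x) ?_ ?_
            · intro x hx
              exact (Finset.mem_filter.mp (Finset.mem_coe.mp hx)).2
            · intro x _ y _ hxy
              exact add_left_cancel hxy
      _ = 2 * (S.card + C.card) ^ (n - 1) := by
          rw [← Finset.mul_prod_erase Finset.univ _ (Finset.mem_univ i), if_pos rfl]
          congr 1
          rw [Finset.prod_congr rfl fun j hj => if_neg (Finset.ne_of_mem_erase hj),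
            Finset.prod_const, Finset.card_erase_of_mem (Finset.mem_univ i), Finset.card_univ,
            Fintype.card_fin]
  calc _ ≤ ∑ _a ∈ S, 2 * (S.card + C.card) ^ (n - 1) := Finset.sum_le_sum h2
    _ = _ := by
        rw [Finset.sum_const, smul_eq_mul]
        ring

/-- few functions have many sums in `C` -/
theorem few_bad {n p : ℕ} {R : Type} [Field R] (hn : 1 ≤ n) (hp : 0 < p) (S C : Finset R)
    (hS : p ≤ 2 * S.card) (i : Fin n) (l : ℕ) :
    2 ^ l * ((Fintype.piFinset (fun _ : Fin n => S)).filter fun f =>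
      l + 2 + 4 * n * C.card / p ≤ (univ.filter fun j => f i + f j ∈ C).card).card ≤ S.card ^ n := by
  set B := (Fintype.piFinset (fun _ : Fin n => S)).filter fun f =>
      l + 2 + 4 * n * C.card / p ≤ (univ.filter fun j => f i + f j ∈ C).card with hB
  set y := 4 * n * C.card / p with hy
  have hS0 : 0 < S.card := by omega
  have h1 : B.card * 2 ^ (l + 2 + y) ≤ 2 * S.card * (S.card + C.card) ^ (n - 1) := by
    refine le_trans ?_ (exp_moment S C i)
    calc B.card * 2 ^ (l + 2 + y) = ∑ _f ∈ B, 2 ^ (l + 2 + y) := by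
          rw [Finset.sum_const, smul_eq_mul]
      _ ≤ ∑ f ∈ B, 2 ^ (univ.filter fun j => f i + f j ∈ C).card := by
          refine Finset.sum_le_sum fun f hf => ?_
          exact Nat.pow_le_pow_right (by norm_num) (Finset.mem_filter.mp hf).2
      _ ≤ _ := Finset.sum_le_sum_of_subset (Finset.filter_subset _ _)
  -- the power
  have hSR : (0 : ℝ) < S.card := by exact_mod_cast hS0
  have hpR : (0 : ℝ) < p := by exact_mod_cast hp
  have h2 : ((S.card : ℝ) + C.card) ^ (n - 1) * S.card ≤ (S.card : ℝ) ^ n * 2 ^ (y + 1) := by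
    have h3 : (S.card : ℝ) + C.card = S.card * (1 + C.card / S.card) := by
      field_simp
    have h4 : 1 + (C.card : ℝ) / S.card ≤ Real.exp (2 * C.card / p) := by
      have h5 : (C.card : ℝ) / S.card ≤ 2 * C.card / p := by
        rw [div_le_div_iff₀ hSR hpR]
        have h6 : (p : ℝ) ≤ 2 * S.card := by exact_mod_cast hS
        have h7 : (C.card : ℝ) * p ≤ C.card * (2 * S.card) :=
          mul_le_mul_of_nonneg_left h6 (Nat.cast_nonneg _)
        linarith
      have h6 := Real.add_one_le_exp (2 * (C.card : ℝ) / p)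
      linarith
    have h5 : (1 + (C.card : ℝ) / S.card) ^ (n - 1) ≤ 2 ^ (y + 1) := by
      have h0 : 0 ≤ (C.card : ℝ) / S.card := div_nonneg (Nat.cast_nonneg _) (Nat.cast_nonneg _)
      calc (1 + (C.card : ℝ) / S.card) ^ (n - 1)
          ≤ (1 + (C.card : ℝ) / S.card) ^ n := pow_le_pow_right₀ (by linarith) (Nat.sub_le _ _)
        _ ≤ (Real.exp (2 * C.card / p)) ^ n := pow_le_pow_left₀ (by linarith) h4 n
        _ = Real.exp (n * (2 * C.card / p)) := (Real.exp_nat_mul _ _).symm
        _ ≤ Real.exp (((y + 1 : ℕ) : ℝ) * Real.log 2) := by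
            apply Real.exp_le_exp.mpr
            have h6 : 4 * (n : ℝ) * C.card / p ≤ ((y + 1 : ℕ) : ℝ) := by
              have h7 : 4 * n * C.card < p * (y + 1) := by
                rw [hy]
                exact Nat.lt_mul_div_succ _ hp
              rw [div_le_iff₀ hpR]
              have h8 : ((4 * n * C.card : ℕ) : ℝ) ≤ ((p * (y + 1) : ℕ) : ℝ) := by
                exact_mod_cast h7.le
              push_cast at h8 ⊢
              linarith
            have h7 : (n : ℝ) * (2 * C.card / p) = (4 * (n : ℝ) * C.card / p) * (1 / 2) := by ring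
            have h8 : (1 / 2 : ℝ) ≤ Real.log 2 := by
              have := Real.log_two_gt_d9
              linarith
            rw [h7]
            have h9 : (0 : ℝ) ≤ ((y + 1 : ℕ) : ℝ) := Nat.cast_nonneg _
            nlinarith
        _ = 2 ^ (y + 1) := by
            rw [Real.exp_nat_mul, Real.exp_log (by norm_num)]
    calc ((S.card : ℝ) + C.card) ^ (n - 1) * S.card
        = (S.card : ℝ) ^ (n - 1) * S.card * (1 + (C.card : ℝ) / S.card) ^ (n - 1) := by
          rw [h3, mul_pow]
          ring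
      _ = (S.card : ℝ) ^ n * (1 + (C.card : ℝ) / S.card) ^ (n - 1) := by
          rw [← pow_succ, Nat.sub_add_cancel hn]
      _ ≤ _ := mul_le_mul_of_nonneg_left h5 (by positivity)
  have h3 : (S.card + C.card) ^ (n - 1) * S.card ≤ S.card ^ n * 2 ^ (y + 1) := by
    have h4 : (((S.card + C.card) ^ (n - 1) * S.card : ℕ) : ℝ) ≤
        ((S.card ^ n * 2 ^ (y + 1) : ℕ) : ℝ) := by
      push_cast
      exact h2
    exact_mod_cast h4
  have h4 : 2 ^ l * B.card * 2 ^ (y + 2) ≤ S.card ^ n * 2 ^ (y + 2) := by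
    calc 2 ^ l * B.card * 2 ^ (y + 2) = B.card * 2 ^ (l + 2 + y) := by ring
      _ ≤ 2 * S.card * (S.card + C.card) ^ (n - 1) := h1
      _ = 2 * ((S.card + C.card) ^ (n - 1) * S.card) := by ring
      _ ≤ 2 * (S.card ^ n * 2 ^ (y + 1)) := Nat.mul_le_mul_left _ h3
      _ = _ := by ring
  exact Nat.le_of_mul_le_mul_right h4 (by positivity)

variable {n : ℕ}

/-- multiplicity of an index in a pair -/
def mu (q : Fin n × Fin n) (i : Fin n) : ℤ := (if q.1 = i then 1 else 0) + (if q.2 = i then 1 else 0)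

theorem mu_nonneg (q : Fin n × Fin n) (i : Fin n) : 0 ≤ mu q i := by
  unfold mu
  split_ifs <;> omega

theorem mu_le (q : Fin n × Fin n) (i : Fin n) : mu q i ≤ 2 := by
  unfold mu
  split_ifs <;> omega

theorem not_pne_of_mu {a b : Fin n × Fin n} (h : ∀ i, mu a i = mu b i) : ¬ Pne a b := by
  intro hp
  obtain ⟨a1, a2⟩ := a
  obtain ⟨b1, b2⟩ := b
  unfold Pne at hp
  simp only at hp
  have h1 := h a1
  have h2 := h a2
  unfold mu at h1 h2
  simp only [if_true] at h1 h2
  by_cases e1 : b1 = a1
  · subst e1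
    by_cases e2 : b2 = a2
    · exact hp.1 ⟨rfl, e2.symm⟩
    · rw [if_neg e2] at h2
      by_cases e3 : b1 = a2
      · subst e3
        rw [if_pos rfl] at h1 h2
        rw [if_neg e2] at h1
        omega
      · rw [if_neg e3] at h2
        omega
  · rw [if_neg e1] at h1
    by_cases e2 : b2 = a1
    · subst e2
      rw [if_pos rfl] at h1
      by_cases e3 : b1 = a2
      · exact hp.2 ⟨rfl, e3.symm⟩
      · rw [if_neg e3] at h2
        by_cases e4 : b2 = a2
        · subst e4
          rw [if_pos rfl] at h1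
          omega
        · rw [if_neg e4] at h2
          omega
    · rw [if_neg e2] at h1
      split_ifs at h1 <;> omega

theorem not_pne_of_pos {a q : Fin n × Fin n} (ha : a.1 ≠ a.2) (h1 : 1 ≤ mu q a.1)
    (h2 : 1 ≤ mu q a.2) : ¬ Pne q a := by
  intro hp
  obtain ⟨a1, a2⟩ := a
  obtain ⟨b1, b2⟩ := q
  unfold Pne at hp
  simp only at hp ha h1 h2
  unfold mu at h1 h2
  simp only at h1 h2
  by_cases e1 : b1 = a1
  · by_cases e2 : b2 = a2
    · exact hp.1 ⟨e1, e2⟩
    · rw [if_neg e2, if_neg (fun e => ha (e1.symm.trans e))] at h2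
      omega
  · rw [if_neg e1] at h1
    by_cases e2 : b2 = a1
    · by_cases e3 : b1 = a2
      · exact hp.2 ⟨e3, e2⟩
      · rw [if_neg e3, if_neg (fun e => ha (e2.symm.trans e))] at h2
        omega
    · rw [if_neg e2] at h1
      omega

section
variable {p : ℕ} [Fact p.Prime]

theorem small_int (hp : 5 ≤ p) {z : ℤ} (h1 : -4 ≤ z) (h2 : z ≤ 4) (h : (z : ZMod p) = 0) :
    z = 0 := by
  rw [ZMod.intCast_zmod_eq_zero_iff_dvd] at h
  exact Int.eq_zero_of_abs_lt_dvd h (by rw [abs_lt]; constructor <;> omega)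

/-- the value at a unit vector -/
theorem ps_single (i : Fin n) (q : Fin n × Fin n) :
    ps (Pi.single i (1 : ZMod p)) q = ((mu q i : ℤ) : ZMod p) := by
  unfold ps mu
  by_cases h1 : q.1 = i <;> by_cases h2 : q.2 = i <;> simp [h1, h2] <;> norm_num

theorem ps_add (k l : Fin n → ZMod p) (q : Fin n × Fin n) : ps (k + l) q = ps k q + ps l q := by
  unfold ps
  simp only [Pi.add_apply]
  ring

theorem ps_sub (k l : Fin n → ZMod p) (q : Fin n × Fin n) : ps (k - l) q = ps k q - ps l q := by
  unfold ps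
  simp only [Pi.sub_apply]
  ring

theorem wit_sidon (hp : 5 ≤ p) {a b : Fin n × Fin n} (h : Pne a b) :
    ∃ k : Fin n → ZMod p, ps k a - ps k b ≠ 0 := by
  by_contra hc
  push Not at hc
  refine not_pne_of_mu (fun i => ?_) h
  have h1 := hc (Pi.single i 1)
  rw [ps_single, ps_single, ← Int.cast_sub] at h1
  have := small_int hp (by linarith [mu_nonneg a i, mu_le b i]) (by linarith [mu_nonneg b i, mu_le a i]) h1
  omega

theorem wit_a (hp : 5 ≤ p) {a b c : Fin n × Fin n} (ha : a.1 ≠ a.2) (hb : b.1 ≠ b.2)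
    (hc : c.1 ≠ c.2) (hdj : Pdj a b) (hac : Pne a c) (hbc : Pne b c) :
    ∃ k : Fin n → ZMod p, ps k a - ps k b = 0 ∧ ps k a - ps k c ≠ 0 := by
  by_contra hcon
  push Not at hcon
  have hma1 : mu a a.1 = 1 := by simp [mu, ha.symm]
  have hma2 : mu a a.2 = 1 := by simp [mu, ha]
  have hmb1 : mu b b.1 = 1 := by simp [mu, hb.symm]
  have hmb2 : mu b b.2 = 1 := by simp [mu, hb]
  have hba1 : mu b a.1 = 0 := by simp [mu, hdj.1.symm, hdj.2.1.symm]
  have hba2 : mu b a.2 = 0 := by simp [mu, hdj.2.2.1.symm, hdj.2.2.2.symm]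
  have hab1 : mu a b.1 = 0 := by simp [mu, hdj.1, hdj.2.2.1]
  have hab2 : mu a b.2 = 0 := by simp [mu, hdj.2.1, hdj.2.2.2]
  have e1 := hcon (Pi.single a.1 1 - Pi.single a.2 1)
    (by simp only [ps_sub, ps_single, hma1, hma2, hba1, hba2]; push_cast; ring)
  have e2 := hcon (Pi.single b.1 1 - Pi.single b.2 1)
    (by simp only [ps_sub, ps_single, hmb1, hmb2, hab1, hab2]; push_cast; ring)
  have e3 := hcon (Pi.single a.1 1 + Pi.single b.1 1)
    (by simp only [ps_add, ps_single, hma1, hmb1, hba1, hab1]; push_cast; ring)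
  simp only [ps_sub, ps_single, hma1, hma2] at e1
  simp only [ps_sub, ps_single, hab1, hab2] at e2
  simp only [ps_add, ps_single, hma1, hab1] at e3
  have hl := mu_le c
  have hn := mu_nonneg c
  have f1 : (1 - 1 - (mu c a.1 - mu c a.2) : ℤ) = 0 :=
    small_int hp (by linarith [hl a.1, hn a.2]) (by linarith [hl a.2, hn a.1])
      (by push_cast at e1 ⊢; linear_combination e1)
  have f2 : (0 - 0 - (mu c b.1 - mu c b.2) : ℤ) = 0 :=
    small_int hp (by linarith [hl b.1, hn b.2]) (by linarith [hl b.2, hn b.1])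
      (by push_cast at e2 ⊢; linear_combination e2)
  have f3 : (1 + 0 - (mu c a.1 + mu c b.1) : ℤ) = 0 :=
    small_int hp (by linarith [hl a.1, hl b.1]) (by linarith [hn a.1, hn b.1])
      (by push_cast at e3 ⊢; linear_combination e3)
  have hcs : Pne c a := ⟨fun e => hac.1 ⟨e.1.symm, e.2.symm⟩, fun e => hac.2 ⟨e.2.symm, e.1.symm⟩⟩
  have hcs' : Pne c b := ⟨fun e => hbc.1 ⟨e.1.symm, e.2.symm⟩, fun e => hbc.2 ⟨e.2.symm, e.1.symm⟩⟩
  by_cases h1 : 1 ≤ mu c a.1
  · exact not_pne_of_pos ha h1 (by omega) hcs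
  by_cases h2 : 1 ≤ mu c b.1
  · exact not_pne_of_pos hb h2 (by omega) hcs'
  have := hn a.1
  have := hn b.1
  omega

theorem wit_b (hp : 5 ≤ p) {a b a' b' : Fin n × Fin n} (ha : a.1 ≠ a.2) (hb : b.1 ≠ b.2)
    (hdj : Pdj a b) (hab' : Pne a' b') (ha' : Pne a' a) (hb' : Pne b' a) :
    ∃ k : Fin n → ZMod p, ps k a - ps k b = 0 ∧ ps k a' - ps k b' ≠ 0 := by
  by_contra hcon
  push Not at hcon
  have hma1 : mu a a.1 = 1 := by simp [mu, ha.symm]
  have hma2 : mu a a.2 = 1 := by simp [mu, ha]
  have hmb1 : mu b b.1 = 1 := by simp [mu, hb.symm]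
  have hmb2 : mu b b.2 = 1 := by simp [mu, hb]
  have hba1 : mu b a.1 = 0 := by simp [mu, hdj.1.symm, hdj.2.1.symm]
  have hba2 : mu b a.2 = 0 := by simp [mu, hdj.2.2.1.symm, hdj.2.2.2.symm]
  have hab1 : mu a b.1 = 0 := by simp [mu, hdj.1, hdj.2.2.1]
  have hab2 : mu a b.2 = 0 := by simp [mu, hdj.2.1, hdj.2.2.2]
  have e1 := hcon (Pi.single a.1 1 - Pi.single a.2 1)
    (by simp only [ps_sub, ps_single, hma1, hma2, hba1, hba2]; push_cast; ring)
  have e2 := hcon (Pi.single b.1 1 - Pi.single b.2 1)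
    (by simp only [ps_sub, ps_single, hmb1, hmb2, hab1, hab2]; push_cast; ring)
  have e3 := hcon (Pi.single a.1 1 + Pi.single b.1 1)
    (by simp only [ps_add, ps_single, hma1, hmb1, hba1, hab1]; push_cast; ring)
  have e4 : ∀ i, mu a i = 0 → mu b i = 0 → mu a' i = mu b' i := by
    intro i h1 h2
    have e := hcon (Pi.single i 1) (by simp only [ps_single, h1, h2]; push_cast; ring)
    rw [ps_single, ps_single, ← Int.cast_sub] at e
    have := small_int hp (by linarith [mu_nonneg a' i, mu_le b' i])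
      (by linarith [mu_nonneg b' i, mu_le a' i]) e
    omega
  simp only [ps_sub, ps_single] at e1 e2
  simp only [ps_add, ps_single] at e3
  have hl := mu_le a'
  have hn := mu_nonneg a'
  have hl' := mu_le b'
  have hn' := mu_nonneg b'
  have f1 : (mu a' a.1 - mu a' a.2 - (mu b' a.1 - mu b' a.2) : ℤ) = 0 :=
    small_int hp (by linarith [hl a.2, hn a.1, hl' a.1, hn' a.2])
      (by linarith [hl a.1, hn a.2, hl' a.2, hn' a.1]) (by push_cast at e1 ⊢; linear_combination e1)
  have f2 : (mu a' b.1 - mu a' b.2 - (mu b' b.1 - mu b' b.2) : ℤ) = 0 :=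
    small_int hp (by linarith [hl b.2, hn b.1, hl' b.1, hn' b.2])
      (by linarith [hl b.1, hn b.2, hl' b.2, hn' b.1]) (by push_cast at e2 ⊢; linear_combination e2)
  have f3 : (mu a' a.1 + mu a' b.1 - (mu b' a.1 + mu b' b.1) : ℤ) = 0 :=
    small_int hp (by linarith [hl' a.1, hl' b.1, hn a.1, hn b.1])
      (by linarith [hl a.1, hl b.1, hn' a.1, hn' b.1]) (by push_cast at e3 ⊢; linear_combination e3)
  rcases lt_trichotomy (mu a' a.1) (mu b' a.1) with h | h | h
  · have := hn a.1
    have := hn a.2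
    exact not_pne_of_pos ha (by omega) (by omega) hb'
  · -- all multiplicities agree
    refine not_pne_of_mu (fun i => ?_) hab'
    by_cases h1 : i = a.1
    · rw [h1]; exact h
    by_cases h2 : i = a.2
    · rw [h2]; omega
    by_cases h3 : i = b.1
    · rw [h3]; omega
    by_cases h4 : i = b.2
    · rw [h4]; omega
    exact e4 i (by simp [mu, Ne.symm h1, Ne.symm h2]) (by simp [mu, Ne.symm h3, Ne.symm h4])
  · have := hn' a.1
    have := hn' a.2
    exact not_pne_of_pos ha (by omega) (by omega) ha'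

theorem wit_quad (hp : 5 ≤ p) {a b c a' b' : Fin n × Fin n} (c' : Fin n × Fin n) (ha : a.1 ≠ a.2)
    (hb : b.1 ≠ b.2) (hc : c.1 ≠ c.2) (hdj : Pdj a b) (hac : Pne a c) (hbc : Pne b c)
    (hab' : Pne a' b') (ha' : Pne a' a) (hb' : Pne b' a) :
    ∃ k : Fin n → ZMod p, (ps k a - ps k b) * (ps k a' - ps k c') -
      (ps k a - ps k c) * (ps k a' - ps k b') ≠ 0 := by
  have key : ∀ k : Fin n → ZMod p, ps k a - ps k b = 0 → ps k a - ps k c ≠ 0 →
      ps k a' - ps k b' ≠ 0 → (ps k a - ps k b) * (ps k a' - ps k c') -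
      (ps k a - ps k c) * (ps k a' - ps k b') ≠ 0 := by
    intro k h1 h2 h3
    rw [h1, zero_mul, zero_sub]
    exact neg_ne_zero.mpr (mul_ne_zero h2 h3)
  obtain ⟨k, hk1, hk2⟩ := wit_a hp ha hb hc hdj hac hbc
  obtain ⟨l, hl1, hl2⟩ := wit_b hp ha hb hdj hab' ha' hb'
  by_cases h1 : ps k a' - ps k b' = 0
  · by_cases h2 : ps l a - ps l c = 0
    · refine ⟨k + l, key _ ?_ ?_ ?_⟩
      · rw [ps_add, ps_add]
        linear_combination hk1 + hl1
      · rw [ps_add, ps_add]
        intro h3
        apply hk2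
        linear_combination h3 - h2
      · rw [ps_add, ps_add]
        intro h3
        apply hl2
        linear_combination h3 - h1
    · exact ⟨l, key l hl1 h2 hl2⟩
  · exact ⟨k, key k hk1 hk2 h1⟩

/-- the sum over a pair of indices as a polynomial -/
noncomputable def lp (p : ℕ) (a : Fin n × Fin n) : MvPolynomial (Fin n) (ZMod p) :=
  MvPolynomial.X a.1 + MvPolynomial.X a.2

theorem eval_lp (k : Fin n → ZMod p) (a : Fin n × Fin n) :
    MvPolynomial.eval k (lp p a) = ps k a := by
  simp [lp, ps]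

theorem deg_lp (a b : Fin n × Fin n) : (lp p a - lp p b).totalDegree ≤ 1 := by
  have h : ∀ a : Fin n × Fin n, (lp p a).totalDegree ≤ 1 := by
    intro a
    refine (MvPolynomial.totalDegree_add _ _).trans ?_
    rw [MvPolynomial.totalDegree_X, MvPolynomial.totalDegree_X]
    exact le_of_eq (max_self 1)
  exact (MvPolynomial.totalDegree_sub _ _).trans (max_le (h a) (h b))

/-- the quadratic polynomial of six pairs -/
noncomputable def qp (p : ℕ) (q : Fin 6 → Fin n × Fin n) : MvPolynomial (Fin n) (ZMod p) :=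
  (lp p (q 0) - lp p (q 1)) * (lp p (q 3) - lp p (q 5)) -
    (lp p (q 0) - lp p (q 2)) * (lp p (q 3) - lp p (q 4))

theorem deg_qp (q : Fin 6 → Fin n × Fin n) : (qp p q).totalDegree ≤ 2 := by
  refine (MvPolynomial.totalDegree_sub _ _).trans (max_le ?_ ?_)
  · refine (MvPolynomial.totalDegree_mul _ _).trans ?_
    have h1 := deg_lp (p := p) (q 0) (q 1)
    have h2 := deg_lp (p := p) (q 3) (q 5)
    omega
  · refine (MvPolynomial.totalDegree_mul _ _).trans ?_
    have h1 := deg_lp (p := p) (q 0) (q 2)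
    have h2 := deg_lp (p := p) (q 3) (q 4)
    omega

theorem exists_gen (n : ℕ) (hn : 1 ≤ n) (hp : 16 * n ^ 12 ≤ p) {τ : Type} [Fintype τ]
    (C : τ → Finset (ZMod p)) (l : ℕ) (hl : 4 * n * Fintype.card τ ≤ 2 ^ l) :
    ∃ k : Fin n → ℕ, (∀ i, 2 * k i < p) ∧ Gen (fun i => ((k i : ℕ) : ZMod p)) ∧
      ∀ i t, (univ.filter fun j => ((k i : ℕ) : ZMod p) + ((k j : ℕ) : ZMod p) ∈ C t).card ≤
        l + 1 + 4 * n * (C t).card / p := by
  have hn12 : 1 ≤ n ^ 12 := Nat.one_le_pow _ _ hn
  have hp5 : 5 ≤ p := by omega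
  set S : Finset (ZMod p) := (Finset.range ((p + 1) / 2)).image (fun j : ℕ => (j : ZMod p)) with hS
  have hScard : S.card = (p + 1) / 2 := by
    rw [hS, Finset.card_image_of_injOn, Finset.card_range]
    intro a ha b hb hab
    rw [Finset.coe_range, Set.mem_Iio] at ha hb
    have h1 := congrArg ZMod.val hab
    simp only at h1
    rwa [ZMod.val_natCast_of_lt (by omega), ZMod.val_natCast_of_lt (by omega)] at h1
  set E : Finset (MvPolynomial (Fin n) (ZMod p)) :=
    ((univ.image fun q : (Fin n × Fin n) × (Fin n × Fin n) => lp p q.1 - lp p q.2) ∪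
      (univ.image fun q : Fin 6 → Fin n × Fin n => qp p q)).filter fun P => P ≠ 0 with hE
  have hEcard : E.card ≤ 2 * n ^ 12 := by
    refine (Finset.card_filter_le _ _).trans ((Finset.card_union_le _ _).trans ?_)
    have h1 : (univ.image fun q : (Fin n × Fin n) × (Fin n × Fin n) =>
        lp p q.1 - lp p q.2).card ≤ n ^ 4 := by
      refine Finset.card_image_le.trans (le_of_eq ?_)
      rw [Finset.card_univ]
      simp only [Fintype.card_prod, Fintype.card_fin]
      ring
    have h2 : (univ.image fun q : Fin 6 → Fin n × Fin n => qp p q).card ≤ n ^ 12 := by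
      refine Finset.card_image_le.trans (le_of_eq ?_)
      rw [Finset.card_univ]
      simp only [Fintype.card_prod, Fintype.card_fin, Fintype.card_pi, Finset.prod_const,
        Finset.card_univ]
      ring
    have h3 : n ^ 4 ≤ n ^ 12 := Nat.pow_le_pow_right hn (by norm_num)
    omega
  have hEdeg : ∀ P ∈ E, P ≠ 0 ∧ P.totalDegree ≤ 2 := by
    intro P hP
    rw [hE, Finset.mem_filter, Finset.mem_union, Finset.mem_image, Finset.mem_image] at hP
    refine ⟨hP.2, ?_⟩
    rcases hP.1 with ⟨q, -, rfl⟩ | ⟨q, -, rfl⟩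
    · exact (deg_lp _ _).trans (by norm_num)
    · exact deg_qp q
  set Bad : Finset (Fin n → ZMod p) := (univ : Finset (Fin n × τ)).biUnion fun q =>
    (Fintype.piFinset (fun _ : Fin n => S)).filter fun f =>
      l + 2 + 4 * n * (C q.2).card / p ≤ (univ.filter fun j => f q.1 + f j ∈ C q.2).card with hBad
  have hS0 : 0 < S.card := by rw [hScard]; omega
  have hSn : 0 < S.card ^ n := pow_pos hS0 n
  have hBadc : 2 * Bad.card < S.card ^ n := by
    have h1 : 2 ^ l * Bad.card ≤ (n * Fintype.card τ) * S.card ^ n := by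
      calc 2 ^ l * Bad.card ≤ 2 ^ l * ∑ q : Fin n × τ,
            ((Fintype.piFinset (fun _ : Fin n => S)).filter fun f =>
              l + 2 + 4 * n * (C q.2).card / p ≤
                (univ.filter fun j => f q.1 + f j ∈ C q.2).card).card :=
            Nat.mul_le_mul_left _ Finset.card_biUnion_le
        _ = ∑ q : Fin n × τ, 2 ^ l * ((Fintype.piFinset (fun _ : Fin n => S)).filter fun f =>
              l + 2 + 4 * n * (C q.2).card / p ≤
                (univ.filter fun j => f q.1 + f j ∈ C q.2).card).card := Finset.mul_sum _ _ _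
        _ ≤ ∑ _q : Fin n × τ, S.card ^ n := by
            refine Finset.sum_le_sum fun q _ => ?_
            have h5 : p ≤ 2 * S.card := by
              rw [hScard]
              omega
            have h6 := few_bad (p := p) hn (by omega) S (C q.2) h5 q.1 l
            refine le_trans (le_of_eq ?_) h6
            congr!
        _ = _ := by
            rw [Finset.sum_const, Finset.card_univ, Fintype.card_prod, Fintype.card_fin,
              smul_eq_mul]
    have h2 : 4 * (n * Fintype.card τ) * Bad.card ≤ (n * Fintype.card τ) * S.card ^ n := by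
      refine le_trans (Nat.mul_le_mul_right _ ?_) h1
      calc 4 * (n * Fintype.card τ) = 4 * n * Fintype.card τ := by ring
        _ ≤ _ := hl
    rcases Nat.eq_zero_or_pos (n * Fintype.card τ) with h0 | h0
    · rw [h0, Nat.zero_mul] at h1
      have h3 : Bad.card = 0 := by
        have h4 : 0 < 2 ^ l := by positivity
        rcases Nat.eq_zero_or_pos Bad.card with h5 | h5
        · exact h5
        · have := Nat.mul_pos h4 h5
          omega
      omega
    · have h3 : 4 * Bad.card ≤ S.card ^ n := by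
        refine Nat.le_of_mul_le_mul_left (c := n * Fintype.card τ) ?_ h0
        calc n * Fintype.card τ * (4 * Bad.card) = 4 * (n * Fintype.card τ) * Bad.card := by ring
          _ ≤ _ := h2
      omega
  obtain ⟨f, hfS, hfB, hfE⟩ := exists_good S E hEdeg (by rw [hScard]; omega) hS0 Bad hBadc
  have hfC : ∀ i t, (univ.filter fun j => f i + f j ∈ C t).card ≤
      l + 1 + 4 * n * (C t).card / p := by
    intro i t
    by_contra hc
    apply hfB
    rw [hBad, Finset.mem_biUnion]
    refine ⟨(i, t), Finset.mem_univ _, ?_⟩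
    rw [Finset.mem_filter, Fintype.mem_piFinset]
    refine ⟨hfS, ?_⟩
    simp only
    omega
  have hk : ∀ i, ∃ j : ℕ, 2 * j < p ∧ (j : ZMod p) = f i := by
    intro i
    obtain ⟨j, hj, hj'⟩ := Finset.mem_image.mp (hfS i)
    rw [Finset.mem_range] at hj
    exact ⟨j, by
      have hodd : p % 2 = 1 := by
        rcases (Fact.out : p.Prime).eq_two_or_odd with h | h
        · omega
        · exact h
      omega, hj'⟩
  choose k hk1 hk2 using hk
  have hkf : (fun i => ((k i : ℕ) : ZMod p)) = f := funext hk2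
  refine ⟨k, hk1, ?_, ?_⟩
  swap
  · intro i t
    simp only [hk2]
    exact hfC i t
  rw [hkf]
  refine ⟨?_, ?_⟩
  · intro a b hab
    obtain ⟨l, hl⟩ := wit_sidon (p := p) hp5 hab
    have hmem : lp p a - lp p b ∈ E := by
      rw [hE, Finset.mem_filter, Finset.mem_union]
      refine ⟨Or.inl (Finset.mem_image.mpr ⟨(a, b), Finset.mem_univ _, rfl⟩), fun h0 => hl ?_⟩
      have := congrArg (MvPolynomial.eval l) h0
      rwa [map_sub, eval_lp, eval_lp, map_zero] at this
    have h1 := hfE _ hmem
    rw [map_sub, eval_lp, eval_lp] at h1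
    exact sub_ne_zero.mp h1
  · intro a b c a' b' c' ha hb hc hdj hac hbc hab' ha' hb'
    obtain ⟨l, hl⟩ := wit_quad (p := p) hp5 c' ha hb hc hdj hac hbc hab' ha' hb'
    have hev : ∀ g : Fin n → ZMod p, MvPolynomial.eval g (qp p ![a, b, c, a', b', c']) =
        (ps g a - ps g b) * (ps g a' - ps g c') - (ps g a - ps g c) * (ps g a' - ps g b') := by
      intro g
      unfold qp
      simp only [map_sub, map_mul, eval_lp]
      rfl
    have hmem : qp p ![a, b, c, a', b', c'] ∈ E := by
      rw [hE, Finset.mem_filter, Finset.mem_union]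
      refine ⟨Or.inr (Finset.mem_image.mpr ⟨_, Finset.mem_univ _, rfl⟩), fun h0 => hl ?_⟩
      have := congrArg (MvPolynomial.eval l) h0
      rwa [hev, map_zero] at this
    have h1 := hfE _ hmem
    rw [hev] at h1
    exact sub_ne_zero.mp h1

end

end GGM3
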