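import Mathlib

/-!
# 3SUM-Indexing with hash functions: the inequalities between the parameters
-/

namespace GGM3

/-- few hits -/
theorem hit_count {x q : ℕ} {I : ℕ} {θ : ℝ} (hI : (I : ℝ) ^ 2 ≤ x * (I + 2 * q)) (hθ : 0 < θ)
    (h1 : 2 * (x : ℝ) ≤ θ) (h2 : 4 * (x : ℝ) * q ≤ θ ^ 2) : (I : ℝ) ≤ θ := by
  by_contra hc
  rw [not_le] at hc
  have hI0 : (0 : ℝ) < I := hθ.trans hc
  have h3 : (x : ℝ) * I ≤ I ^ 2 / 2 := by nlinarith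
  nlinarith

/-- consequences of many accesses -/
theorem hash_num {n Q u t a γ : ℝ} (hn : 1 ≤ n) (hQ : u ^ 2 ≤ Q) (hu : 0 ≤ u) (ht : 1 ≤ t)
    (ha : 1 ≤ a) (hγ : 0 < γ) (hγ2 : γ ≤ 1 / 2)
    (hcon : 10 ^ 4 * a * t ^ 4 * (n ^ 2 + Q) < γ ^ 3 * n ^ 4) :
    10 ^ 4 * a * t ^ 4 * Q ≤ γ ^ 3 * n ^ 4 ∧
    2 * 10 ^ 4 * a * t ^ 2 ≤ γ ^ 2 * n ^ 2 ∧ 100 * t ≤ γ * n ∧ 48 * t ^ 2 * u ≤ γ * n ^ 2 := by
  have hn0 : 0 < n := by linarith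
  have hQ0 : 0 ≤ Q := (sq_nonneg u).trans hQ
  have c1 : 10 ^ 4 * a * t ^ 4 ≤ γ ^ 3 * n ^ 2 := by
    have h2 : 0 ≤ 10 ^ 4 * a * t ^ 4 * Q := by positivity
    have h1 : 10 ^ 4 * a * t ^ 4 * n ^ 2 ≤ γ ^ 3 * n ^ 2 * n ^ 2 := by nlinarith
    exact le_of_mul_le_mul_right h1 (by positivity)
  have c2 : 10 ^ 4 * a * t ^ 4 * Q ≤ γ ^ 3 * n ^ 4 := by
    have h2 : 0 ≤ 10 ^ 4 * a * t ^ 4 * n ^ 2 := by positivity
    nlinarith
  have c3 : 2 * 10 ^ 4 * a * t ^ 4 ≤ γ ^ 2 * n ^ 2 := by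
    have h1 : γ ^ 3 * n ^ 2 ≤ γ ^ 2 * n ^ 2 / 2 := by
      have h2 : 0 ≤ γ ^ 2 * n ^ 2 := by positivity
      have h3 : γ ^ 3 * n ^ 2 = γ * (γ ^ 2 * n ^ 2) := by ring
      rw [h3]
      nlinarith
    linarith
  have ht24 : t ^ 2 ≤ t ^ 4 := pow_le_pow_right₀ ht (by norm_num)
  refine ⟨c2, ?_, ?_, ?_⟩
  · exact (mul_le_mul_of_nonneg_left ht24 (by positivity)).trans c3
  · refine (pow_le_pow_iff_left₀ (by positivity) (by positivity) two_ne_zero).1 ?_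
    have h1 : 2 * 10 ^ 4 * t ^ 2 ≤ 2 * 10 ^ 4 * a * t ^ 4 := by
      have h2 : 1 * t ^ 2 ≤ a * t ^ 4 := mul_le_mul ha ht24 (by positivity) (by positivity)
      nlinarith
    have h2 : (100 * t) ^ 2 ≤ 2 * 10 ^ 4 * t ^ 2 := by nlinarith [sq_nonneg t]
    rw [mul_pow γ n 2]
    exact h2.trans (h1.trans c3)
  · refine (pow_le_pow_iff_left₀ (by positivity) (by positivity) two_ne_zero).1 ?_
    have h1 : γ ^ 3 * n ^ 4 ≤ γ ^ 2 * n ^ 4 / 2 := by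
      have h2 : 0 ≤ γ ^ 2 * n ^ 4 := by positivity
      have h3 : γ ^ 3 * n ^ 4 = γ * (γ ^ 2 * n ^ 4) := by ring
      rw [h3]
      nlinarith
    have h2 : t ^ 4 * u ^ 2 ≤ a * t ^ 4 * Q := by
      have h3 : t ^ 4 * u ^ 2 ≤ t ^ 4 * Q := mul_le_mul_of_nonneg_left hQ (by positivity)
      have h4 : 1 * (t ^ 4 * Q) ≤ a * (t ^ 4 * Q) :=
        mul_le_mul_of_nonneg_right ha (by positivity)
      linarith
    have h3 : 0 ≤ t ^ 4 * u ^ 2 := by positivity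
    calc (48 * t ^ 2 * u) ^ 2 = 2304 * (t ^ 4 * u ^ 2) := by ring
      _ ≤ 2 * 10 ^ 4 * (t ^ 4 * u ^ 2) := by nlinarith
      _ ≤ 2 * (10 ^ 4 * a * t ^ 4 * Q) := by nlinarith
      _ ≤ 2 * (γ ^ 2 * n ^ 4 / 2) := by linarith
      _ = (γ * n ^ 2) ^ 2 := by ring

/-- the parameters -/
theorem hash_num2 {n Q u t a γ s m θ c β : ℝ} (hn : 1 ≤ n) (hQ : u ^ 2 ≤ Q) (hu : 0 ≤ u)
    (ht : 1 ≤ t) (ha : 1 ≤ a) (hγ : 0 < γ) (hγ2 : γ ≤ 1 / 2)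
    (hcon : 10 ^ 4 * a * t ^ 4 * (n ^ 2 + Q) < γ ^ 3 * n ^ 4) (hs0 : 0 ≤ s)
    (hs : s ≤ 3 * t) (hm0 : 0 ≤ m) (hm : m * γ ≤ 2 * a) (hθ : θ = γ * n ^ 2 / (16 * t))
    (hc : c ≤ n + θ) (hβ : 9 * n ^ 2 ≤ 20 * β) :
    0 < θ ∧ 2 * (m * s) ≤ θ ∧ 4 * (m * s) * Q ≤ θ ^ 2 ∧
      2 * t * (u * s + c) + s * s * (m + 1) ≤ γ * β ∧ 2 * (s * s * (m + 1)) ≤ n ^ 2 := by
  obtain ⟨c2, c4, c5, c6⟩ := hash_num hn hQ hu ht ha hγ hγ2 hcon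
  have hn0 : 0 < n := by linarith
  have ht0 : 0 < t := by linarith
  have hQ0 : 0 ≤ Q := (sq_nonneg u).trans hQ
  have hθ0 : 0 < θ := by rw [hθ]; positivity
  have e1 : θ * (16 * t) = γ * n ^ 2 := by
    rw [hθ]
    field_simp
  have h1 : m * s * γ ≤ 6 * a * t := by
    calc m * s * γ = (m * γ) * s := by ring
      _ ≤ (2 * a) * (3 * t) := mul_le_mul hm hs hs0 (by positivity)
      _ = _ := by ring
  have h2 : 9 * t ^ 2 * (m + 1) ≤ γ * n ^ 2 / 16 := by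
    have h3 : γ * (9 * t ^ 2 * (m + 1)) ≤ γ * (γ * n ^ 2 / 16) := by
      have h4 : (m + 1) * γ ≤ 5 * a / 2 := by nlinarith
      have h5 : (9 * t ^ 2) * ((m + 1) * γ) ≤ (9 * t ^ 2) * (5 * a / 2) :=
        mul_le_mul_of_nonneg_left h4 (by positivity)
      have h6 : 0 ≤ a * t ^ 2 := by positivity
      nlinarith
    exact le_of_mul_le_mul_left h3 hγ
  have h3 : s * s * (m + 1) ≤ γ * n ^ 2 / 16 := by
    refine le_trans ?_ h2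
    refine mul_le_mul_of_nonneg_right ?_ (by linarith)
    nlinarith
  have h4 : γ * n ^ 2 ≤ n ^ 2 / 2 := by nlinarith [sq_nonneg n]
  have h44 : 0 ≤ n ^ 2 := sq_nonneg n
  refine ⟨hθ0, ?_, ?_, ?_, by linarith⟩
  · have h5 : 2 * (m * s) * (γ * (16 * t)) ≤ θ * (γ * (16 * t)) := by
      have h6 : (32 * t) * (m * s * γ) ≤ (32 * t) * (6 * a * t) :=
        mul_le_mul_of_nonneg_left h1 (by positivity)
      have h7 : θ * (γ * (16 * t)) = γ ^ 2 * n ^ 2 := by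
        calc θ * (γ * (16 * t)) = γ * (θ * (16 * t)) := by ring
          _ = _ := by rw [e1]; ring
      have h8 : 0 ≤ a * t ^ 2 := by positivity
      rw [h7]
      nlinarith
    exact le_of_mul_le_mul_right h5 (by positivity)
  · have h5 : 4 * (m * s) * Q * (γ * (16 * t) ^ 2) ≤ θ ^ 2 * (γ * (16 * t) ^ 2) := by
      have h7 : θ ^ 2 * (γ * (16 * t) ^ 2) = γ ^ 3 * n ^ 4 := by
        calc θ ^ 2 * (γ * (16 * t) ^ 2) = γ * (θ * (16 * t)) ^ 2 := by ring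
          _ = _ := by rw [e1]; ring
      have h9 : (1024 * t ^ 2 * Q) * (m * s * γ) ≤ (1024 * t ^ 2 * Q) * (6 * a * t) :=
        mul_le_mul_of_nonneg_left h1 (by positivity)
      have h10 : a * t ^ 3 * Q ≤ a * t ^ 4 * Q := by
        refine mul_le_mul_of_nonneg_right (mul_le_mul_of_nonneg_left ?_ (by linarith)) hQ0
        exact pow_le_pow_right₀ ht (by norm_num)
      have h11 : 0 ≤ a * t ^ 4 * Q := by positivity
      rw [h7]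
      nlinarith
    exact le_of_mul_le_mul_right h5 (by positivity)
  · have h5 : 2 * t * (u * s) ≤ γ * n ^ 2 / 8 := by
      have h6 : u * s ≤ u * (3 * t) := mul_le_mul_of_nonneg_left hs hu
      have h7 : 2 * t * (u * s) ≤ 2 * t * (u * (3 * t)) :=
        mul_le_mul_of_nonneg_left h6 (by positivity)
      nlinarith
    have h6 : 2 * t * c ≤ γ * n ^ 2 / 50 + γ * n ^ 2 / 8 := by
      have h7 : 2 * t * c ≤ 2 * t * (n + θ) := mul_le_mul_of_nonneg_left hc (by positivity)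
      have h8 : 2 * t * n ≤ γ * n ^ 2 / 50 := by
        have h9 : 100 * t * n ≤ γ * n * n := mul_le_mul_of_nonneg_right c5 hn0.le
        nlinarith
      nlinarith
    have h7 : 9 * (γ * n ^ 2) / 20 ≤ γ * β := by
      have := mul_le_mul_of_nonneg_left hβ hγ.le
      linarith
    have h8 : 0 ≤ γ * n ^ 2 := by positivity
    nlinarith

/-- the hypothesis of `hash_num2` and the bound for the small classes -/
theorem hash_num3 {n u t a γ Λ Q : ℝ} (hn : 1 ≤ n) (hu : 0 ≤ u) (ht : 1 ≤ t) (ha : 1 ≤ a)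
    (hγ : 0 < γ) (hγ2 : γ ≤ 1 / 2) (hΛ : 2 ≤ Λ)
    (hcon : 20000 * Λ ^ 2 * a * t ^ 4 * (n + u) ^ 2 < γ ^ 3 * n ^ 4)
    (hQ : Q ≤ u * (u * Λ + 4 * n)) :
    10 ^ 4 * a * t ^ 4 * (n ^ 2 + Q) < (9 * γ / 10) ^ 3 * n ^ 4 ∧ 20 * Λ ≤ γ * n ∧ u < n ^ 2 := by
  have hn0 : 0 < n := by linarith
  have hT : 1 ≤ a * t ^ 4 := by
    have h1 : (1 : ℝ) ≤ t ^ 4 := one_le_pow₀ ht
    nlinarith
  have hA0 : 0 ≤ a * t ^ 4 := by positivity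
  -- `n² + Q ≤ 5/4 Λ (n + u)²`
  have e1 : n ^ 2 + Q ≤ 5 / 4 * Λ ^ 2 * (n + u) ^ 2 := by
    have h0 : 4 ≤ Λ ^ 2 := by nlinarith
    have h1 : Λ ≤ Λ ^ 2 / 2 := by nlinarith
    have h2 : u * (u * Λ + 4 * n) ≤ Λ ^ 2 * (u ^ 2 / 2 + u * n) := by
      have h3 : u ^ 2 * Λ ≤ u ^ 2 * (Λ ^ 2 / 2) := mul_le_mul_of_nonneg_left h1 (sq_nonneg u)
      have h4 : u * n * 4 ≤ u * n * Λ ^ 2 := mul_le_mul_of_nonneg_left h0 (by positivity)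
      nlinarith
    have h3 : n ^ 2 * 4 ≤ n ^ 2 * Λ ^ 2 := mul_le_mul_of_nonneg_left h0 (sq_nonneg n)
    have h4 : 0 ≤ Λ ^ 2 * (u * n) := by positivity
    have h5 : 0 ≤ Λ ^ 2 * u ^ 2 := by positivity
    have h6 : 0 ≤ Λ ^ 2 * n ^ 2 := by positivity
    nlinarith
  have e2 : 10 ^ 4 * a * t ^ 4 * (n ^ 2 + Q) ≤
      10 ^ 4 * a * t ^ 4 * (5 / 4 * Λ ^ 2 * (n + u) ^ 2) :=
    mul_le_mul_of_nonneg_left e1 (by positivity)
  have hG : 0 < γ ^ 3 * n ^ 4 := by positivity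
  refine ⟨?_, ?_, ?_⟩
  · have e3 : (9 * γ / 10) ^ 3 * n ^ 4 = 729 / 1000 * (γ ^ 3 * n ^ 4) := by ring
    rw [e3]
    have e4 : 10 ^ 4 * a * t ^ 4 * (5 / 4 * Λ ^ 2 * (n + u) ^ 2) =
        5 / 8 * (20000 * Λ ^ 2 * a * t ^ 4 * (n + u) ^ 2) := by ring
    rw [e4] at e2
    linarith
  · -- `20000 Λ² ≤ γ² n² / 2`
    have h1 : 20000 * Λ ^ 2 * n ^ 2 ≤ γ ^ 3 * n ^ 2 * n ^ 2 := by
      have h2 : Λ ^ 2 * n ^ 2 * 1 ≤ Λ ^ 2 * (n + u) ^ 2 * (a * t ^ 4) := by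
        refine mul_le_mul (mul_le_mul_of_nonneg_left ?_ (sq_nonneg Λ)) hT zero_le_one
          (by positivity)
        nlinarith
      nlinarith
    have h2 : 20000 * Λ ^ 2 ≤ γ ^ 3 * n ^ 2 := le_of_mul_le_mul_right h1 (by positivity)
    have h3 : γ ^ 3 * n ^ 2 ≤ γ ^ 2 * n ^ 2 / 2 := by
      have h4 : 0 ≤ γ ^ 2 * n ^ 2 := by positivity
      have h5 : γ ^ 3 * n ^ 2 = γ * (γ ^ 2 * n ^ 2) := by ring
      rw [h5]
      nlinarith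
    refine (pow_le_pow_iff_left₀ (by positivity) (by positivity) two_ne_zero).1 ?_
    rw [mul_pow γ n 2]
    nlinarith [sq_nonneg Λ]
  · by_contra hc
    rw [not_lt] at hc
    have h1 : n ^ 4 ≤ (n + u) ^ 2 := by
      have h2 : (n ^ 2) ^ 2 ≤ (n + u) ^ 2 := pow_le_pow_left₀ (by positivity) (by linarith) 2
      calc n ^ 4 = (n ^ 2) ^ 2 := by ring
        _ ≤ _ := h2
    have h3 : γ ^ 3 ≤ 1 := pow_le_one₀ hγ.le (by linarith)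
    have h4 : γ ^ 3 * n ^ 4 ≤ 1 * n ^ 4 := mul_le_mul_of_nonneg_right h3 (by positivity)
    have h5 : 4 ≤ Λ ^ 2 := by nlinarith
    have h6 : 1 * (n + u) ^ 2 ≤ (20000 * Λ ^ 2 * (a * t ^ 4)) * (n + u) ^ 2 := by
      refine mul_le_mul_of_nonneg_right ?_ (sq_nonneg _)
      nlinarith
    nlinarith

end GGM3
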